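import Pool.Agent.K3h2.LT.Stm3

/-! Project LT (helper2), brick UPP3 (helper40), adapted from `K3h58/LT/Upp.lean` (helper58). -/

set_option autoImplicit false

open Filter Topology

namespace Pool.Agent.K3h40.LT

open Pool.Agent.K3h2.LT

theorem summable_half : Summable (fun k : ℤ => (1 / 2 : ℝ) ^ k.natAbs) := by
  refine Summable.of_nat_of_neg ?_ ?_
  · simp only [Int.natAbs_natCast]
    exact summable_geometric_of_lt_one (by norm_num) (by norm_num)
  · simp only [Int.natAbs_neg, Int.natAbs_natCast]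
    exact summable_geometric_of_lt_one (by norm_num) (by norm_num)

theorem summable_dom {f : ℤ → ℝ} {M : ℝ} (h0 : ∀ k, 0 ≤ f k)
    (h : ∀ k, f k ≤ M * (1 / 2) ^ k.natAbs) : Summable f :=
  Summable.of_nonneg_of_le h0 h (summable_half.mul_left M)

theorem t_UPP3 : S3_UPP := by
  intro C L s lam ho
  have hb0 : ∀ k : ℤ, (0 : ℝ) < (1 / 2) ^ k.natAbs := fun k => by positivity
  have hb1 : ∀ k : ℤ, ((1 : ℝ) / 2) ^ k.natAbs ≤ 1 := fun k =>
    pow_le_one₀ (by norm_num) (by norm_num)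
  have hC : 0 < C := lt_of_lt_of_le one_pos ho.Cpos
  have hT : 0 < ∑' k : ℤ, (1 / 2 : ℝ) ^ k.natAbs :=
    summable_half.tsum_pos (fun k => (hb0 k).le) 0 (hb0 0)
  refine ⟨L * (3 / 2 * C ^ 2) * ∑' k : ℤ, (1 / 2 : ℝ) ^ k.natAbs, by
    have := ho.Lpos; positivity, ?_⟩
  intro n y δ hy hδ hclose
  have hL := ho.Lpos
  -- bounds
  have sC : ∀ m k, s m k ≤ C := fun m k =>
    (ho.dom m k).trans (by nlinarith [hb1 k])
  have yC : ∀ k, y k ≤ C := fun k => (hy.dom k).trans (by nlinarith [hb1 k])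
  have s0 := ho.nonneg
  have y0 : ∀ k, 0 ≤ y k := fun k => (hy.pos k).le
  have cube_le : ∀ a : ℝ, 0 ≤ a → a ≤ C → a ^ 3 ≤ C ^ 3 := fun a h1 h2 => pow_le_pow_left₀ h1 h2 3
  have sq_le : ∀ a : ℝ, 0 ≤ a → a ≤ C → a ^ 2 ≤ C ^ 2 := fun a h1 h2 => pow_le_pow_left₀ h1 h2 2
  have sumf : ∀ g : ℤ → ℝ, (∀ k, 0 ≤ g k) → (∀ k, g k ≤ C) →
      Summable (fun k => y k ^ 3 * g k ^ 3) := by
    intro g hg0 hgC
    refine summable_dom (M := C ^ 6) (fun k => by have := hg0 k; have := y0 k; positivity)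
      fun k => ?_
    have h1 := sq_le _ (y0 k) (yC k)
    have h2 := cube_le _ (hg0 k) (hgC k)
    have h3 := hg0 k
    have h4 := y0 k
    have h5 := hb0 k
    calc y k ^ 3 * g k ^ 3 = y k * (y k ^ 2 * g k ^ 3) := by ring
      _ ≤ (C * (1 / 2) ^ k.natAbs) * (C ^ 2 * C ^ 3) :=
          mul_le_mul (hy.dom k) (mul_le_mul h1 h2 (by positivity) (by positivity))
            (by positivity) (by positivity)
      _ = C ^ 6 * (1 / 2) ^ k.natAbs := by ring
  have F1 := sumf (fun k => s n (k - 1)) (fun k => s0 n _) (fun k => sC n _)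
  have F2 := sumf (fun k => s n k) (fun k => s0 n _) (fun k => sC n _)
  have F3 := sumf (fun k => s n (k + 1)) (fun k => s0 n _) (fun k => sC n _)
  -- the two evaluations
  have e1 : lam n * ∑' k, y k ^ 3 * s (n + 1) k =
      ∑' k, y k ^ 3 * s n (k - 1) ^ 3 + ∑' k, y k ^ 3 * s n k ^ 3 +
        ∑' k, y k ^ 3 * s n (k + 1) ^ 3 := by
    rw [← tsum_mul_left, ← F1.tsum_add F2, ← (F1.add F2).tsum_add F3]
    refine tsum_congr fun k => ?_
    have := ho.step n k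
    calc lam n * (y k ^ 3 * s (n + 1) k) = y k ^ 3 * (lam n * s (n + 1) k) := by ring
      _ = _ := by rw [this]; ring
  have G1 : Summable (fun k : ℤ => y (k + 1) ^ 3 * s n k ^ 3) := by
    have := (Equiv.addRight (1 : ℤ)).summable_iff.2 F1
    refine this.congr fun k => ?_
    simp
  have G3 : Summable (fun k : ℤ => y (k - 1) ^ 3 * s n k ^ 3) := by
    have := (Equiv.subRight (1 : ℤ)).summable_iff.2 F3
    refine this.congr fun k => ?_
    simp
  have g1 : ∑' k, y k ^ 3 * s n (k - 1) ^ 3 = ∑' k, y (k + 1) ^ 3 * s n k ^ 3 := by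
    rw [← (Equiv.addRight (1 : ℤ)).tsum_eq]
    refine tsum_congr fun k => ?_
    simp
  have g3 : ∑' k, y k ^ 3 * s n (k + 1) ^ 3 = ∑' k, y (k - 1) ^ 3 * s n k ^ 3 := by
    rw [← (Equiv.subRight (1 : ℤ)).tsum_eq]
    refine tsum_congr fun k => ?_
    simp
  have e2 : L * ∑' k, y k * s n k ^ 3 =
      ∑' k, y k ^ 3 * s n (k - 1) ^ 3 + ∑' k, y k ^ 3 * s n k ^ 3 +
        ∑' k, y k ^ 3 * s n (k + 1) ^ 3 := by
    rw [g1, g3, ← tsum_mul_left, ← G1.tsum_add F2, ← (G1.add F2).tsum_add G3]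
    refine tsum_congr fun k => ?_
    have := hy.eq k
    calc L * (y k * s n k ^ 3) = (L * y k) * s n k ^ 3 := by ring
      _ = _ := by rw [this]; ring
  -- the upper bound
  have hS1 : Summable (fun k => y k ^ 3 * s (n + 1) k) := by
    refine summable_dom (M := C ^ 4) (fun k => by
      have := s0 (n + 1) k; have := y0 k; positivity) fun k => ?_
    have h4 := y0 k
    have h5 := hb0 k
    calc y k ^ 3 * s (n + 1) k = y k * (y k ^ 2 * s (n + 1) k) := by ring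
      _ ≤ (C * (1 / 2) ^ k.natAbs) * (C ^ 2 * C) :=
          mul_le_mul (hy.dom k) (mul_le_mul (sq_le _ (y0 k) (yC k)) (sC _ k) (s0 _ k)
            (by positivity)) (mul_nonneg (by positivity) (s0 _ k)) (by positivity)
      _ = _ := by ring
  have hup : ∑' k, y k ^ 3 * s (n + 1) k ≤ 1 := by
    have hs := ho.quart (n + 1)
    have hyc := hy.quart
    have h1 : HasSum (fun k => (3 * y k ^ 4 + s (n + 1) k ^ 4) / 4) ((3 * 1 + 1) / 4) :=
      ((hyc.mul_left 3).add hs).div_const 4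
    have h2 : ∑' k, y k ^ 3 * s (n + 1) k ≤ (3 * 1 + 1) / 4 := by
      rw [← h1.tsum_eq]
      refine hS1.tsum_le_tsum (fun k => ?_) h1.summable
      have a1 := y0 k
      have a2 := s0 (n + 1) k
      have a3 : 0 ≤ (y k - s (n + 1) k) ^ 2 *
          (3 * y k ^ 2 + 2 * y k * s (n + 1) k + s (n + 1) k ^ 2) := by positivity
      have a4 : 3 * y k ^ 4 + s (n + 1) k ^ 4 - 4 * (y k ^ 3 * s (n + 1) k) =
          (y k - s (n + 1) k) ^ 2 *
            (3 * y k ^ 2 + 2 * y k * s (n + 1) k + s (n + 1) k ^ 2) := by ring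
      linarith
    linarith
  -- the lower bound
  have hS2 : Summable (fun k => y k * s n k ^ 3) := by
    refine summable_dom (M := C ^ 4) (fun k => by
      have := y0 k; have := s0 n k; positivity) fun k => ?_
    have h4 := s0 n k
    have h5 := hb0 k
    calc y k * s n k ^ 3 ≤ (C * (1 / 2) ^ k.natAbs) * C ^ 3 :=
          mul_le_mul (hy.dom k) (cube_le _ (s0 _ k) (sC _ k)) (by positivity) (by positivity)
      _ = _ := by ring
  have hlo : 1 - δ ^ 2 * (3 / 2 * C ^ 2 * ∑' k : ℤ, (1 / 2 : ℝ) ^ k.natAbs) ≤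
      ∑' k, y k * s n k ^ 3 := by
    have hs := ho.quart n
    have hyc := hy.quart
    have h1 : HasSum (fun k : ℤ => (y k ^ 4 + 3 * s n k ^ 4) / 4 -
        δ ^ 2 * (3 / 2 * C ^ 2 * (1 / 2) ^ k.natAbs)) ((1 + 3 * 1) / 4 -
        δ ^ 2 * (3 / 2 * C ^ 2 * ∑' k : ℤ, (1 / 2 : ℝ) ^ k.natAbs)) :=
      ((hyc.add (hs.mul_left 3)).div_const 4).sub
        ((summable_half.hasSum.mul_left (3 / 2 * C ^ 2)).mul_left (δ ^ 2))
    have h2 : (1 + 3 * 1) / 4 - δ ^ 2 * (3 / 2 * C ^ 2 * ∑' k : ℤ, (1 / 2 : ℝ) ^ k.natAbs) ≤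
        ∑' k, y k * s n k ^ 3 := by
      rw [← h1.tsum_eq]
      refine h1.summable.tsum_le_tsum (fun k => ?_) hS2
      have a1 := y0 k
      have a2 := s0 n k
      have a3 := hy.dom k
      have a4 := ho.dom n k
      have b0 := hb0 k
      have b1 := hb1 k
      have a5 : (y k - s n k) ^ 2 ≤ δ ^ 2 := by
        have := hclose k
        rw [← sq_abs, abs_sub_comm]
        exact pow_le_pow_left₀ (abs_nonneg _) this 2
      have c0 : (0 : ℝ) ≤ C * (1 / 2) ^ k.natAbs := by positivity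
      have c1 : (C * (1 / 2) ^ k.natAbs) ^ 2 ≤ C ^ 2 * (1 / 2) ^ k.natAbs := by
        have e : (C * (1 / 2) ^ k.natAbs) ^ 2 =
            C ^ 2 * ((1 / 2) ^ k.natAbs * (1 / 2 : ℝ) ^ k.natAbs) := by ring
        rw [e]
        refine mul_le_mul_of_nonneg_left ?_ (by positivity)
        exact mul_le_of_le_one_right b0.le b1
      have d1 : y k ^ 2 ≤ (C * (1 / 2) ^ k.natAbs) ^ 2 := pow_le_pow_left₀ a1 a3 2
      have d2 : s n k ^ 2 ≤ (C * (1 / 2) ^ k.natAbs) ^ 2 := pow_le_pow_left₀ a2 a4 2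
      have d3 : y k * s n k ≤ (C * (1 / 2) ^ k.natAbs) ^ 2 := by
        rw [sq]
        exact mul_le_mul a3 a4 a2 c0
      have a6 : (y k - s n k) ^ 2 * (y k ^ 2 + 2 * (y k * s n k) + 3 * s n k ^ 2) ≤
          δ ^ 2 * (6 * (C ^ 2 * (1 / 2) ^ k.natAbs)) :=
        mul_le_mul a5 (by linarith) (by positivity) (sq_nonneg _)
      have a7 : 4 * (y k * s n k ^ 3) = y k ^ 4 + 3 * s n k ^ 4 -
          (y k - s n k) ^ 2 * (y k ^ 2 + 2 * (y k * s n k) + 3 * s n k ^ 2) := by ring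
      linarith
    linarith
  have h1 : L * ∑' k, y k * s n k ^ 3 = lam n * ∑' k, y k ^ 3 * s (n + 1) k := by rw [e1, e2]
  have h2 : lam n * ∑' k, y k ^ 3 * s (n + 1) k ≤ lam n * 1 :=
    mul_le_mul_of_nonneg_left hup (ho.pos n).le
  have h3 := mul_le_mul_of_nonneg_left hlo hL.le
  have h4 : L * (1 - δ ^ 2 * (3 / 2 * C ^ 2 * ∑' k : ℤ, (1 / 2 : ℝ) ^ k.natAbs)) ≤ lam n := by
    rw [mul_one] at h2
    exact h3.trans (h1.le.trans h2)
  linarith

end Pool.Agent.K3h40.LT
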